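import Pool.Agent.Lib.LF.Defs

/-!
# C43, block C (helper35): completion of a 0-hyperbolic space to a `Λ`-tree in the frozen form
-/

set_option autoImplicit false

noncomputable section

namespace Pool.Agent.LF

namespace CC

variable {Λ : Type} [AddCommGroup Λ] [LinearOrder Λ] [IsOrderedAddMonoid Λ]

/-! ### Geodesic 0-hyperbolic metric spaces over a 2-divisible group -/

section geo

variable {X : Type} (d : X → X → Λ)

theorem nonneg (h0 : ∀ x, d x x = 0)
    (hyp : ∀ w x y z, d w x + d y z ≤ max (d w y + d x z) (d w z + d x y)) (x y : X) :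
    0 ≤ d x y := by
  have h := hyp x x y y
  rw [h0, h0, max_self] at h
  by_contra hc
  push Not at hc
  have : d x y + d x y < 0 := add_neg hc hc
  exact absurd (h.trans_lt this) (by simp)

theorem tri (h0 : ∀ x, d x x = 0) (hs : ∀ x y, d x y = d y x)
    (hyp : ∀ w x y z, d w x + d y z ≤ max (d w y + d x z) (d w z + d x y)) (x y z : X) :
    d x z ≤ d x y + d y z := by
  have h := hyp x z y y
  rw [h0, max_self, add_zero, hs z y] at h
  exact h

/-- Points at the same distance from `x` on two segments, before the branch point, agree. -/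
theorem agree (h0 : ∀ x, d x x = 0) (hs : ∀ x y, d x y = d y x)
    (hyp : ∀ w x y z, d w x + d y z ≤ max (d w y + d x z) (d w z + d x y))
    (x y z u v : X) (s : Λ) (hux : d x u = s) (huy : d u y = d x y - s) (hvx : d x v = s)
    (hvz : d v z = d x z - s) (hc : s + s + d y z ≤ d x y + d x z) : d u v = 0 := by
  refine le_antisymm ?_ (nonneg d h0 hyp u v)
  -- `d v y ≤ d x y - s`
  have h1 : d v y ≤ d x y - s := by
    have h := hyp v y x z
    -- d v y + d x z ≤ max (d v x + d y z) (d v z + d y x)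
    rw [hs v x, hvx, hvz, hs y x] at h
    have h2 : s + d y z ≤ d x z - s + d x y := by
      have : s + s + d y z ≤ d x z + d x y := by rw [add_comm (d x z)]; exact hc
      rw [sub_add_eq_add_sub, le_sub_iff_add_le]
      calc s + d y z + s = s + s + d y z := by abel
        _ ≤ _ := this
    rw [max_eq_right h2] at h
    have h3 : d v y + d x z ≤ (d x y - s) + d x z := by
      calc d v y + d x z ≤ d x z - s + d x y := h
        _ = _ := by abel
    exact le_of_add_le_add_right h3
  have h := hyp u v x y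
  -- d u v + d x y ≤ max (d u x + d v y) (d u y + d v x)
  rw [hs u x, hux, huy, hs v x, hvx, sub_add_cancel] at h
  have h4 : s + d v y ≤ d x y := by
    calc s + d v y ≤ s + (d x y - s) := by gcongr
      _ = _ := by abel
  rw [max_eq_right h4] at h
  exact nonpos_of_add_le_left h

/-- The segments of a geodesic 0-hyperbolic metric space over a 2-divisible group satisfy the
axioms of a `Λ`-tree. -/
theorem seg_ax (h00 : ∀ x y, d x y = 0 ↔ x = y) (hs : ∀ x y, d x y = d y x)
    (hyp : ∀ w x y z, d w x + d y z ≤ max (d w y + d x z) (d w z + d x y))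
    (hdiv : ∀ x : Λ, ∃ y, y + y = x)
    (hgeo : ∀ x y, ∃ f : Λ → X, f 0 = x ∧ f (d x y) = y ∧
      ∀ s ∈ Set.Icc (0 : Λ) (d x y), ∀ t ∈ Set.Icc (0 : Λ) (d x y), d (f s) (f t) = |s - t|)
    (Seg : Set X → X → X → Prop)
    (hSeg : ∀ S x y, Seg S x y ↔ ∃ f : Λ → X, f 0 = x ∧ f (d x y) = y ∧
      (∀ s ∈ Set.Icc (0 : Λ) (d x y), ∀ t ∈ Set.Icc (0 : Λ) (d x y), d (f s) (f t) = |s - t|) ∧
      S = f '' Set.Icc (0 : Λ) (d x y)) :
    (∀ x y, ∃ S, Seg S x y) ∧
    (∀ S T x y z, Seg S x y → Seg T y z → S ∩ T = {y} → ∃ a b, Seg (S ∪ T) a b) ∧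
    (∀ S T x y z, Seg S x y → Seg T x z → ∃ a b, Seg (S ∩ T) a b) := by
  have h0 : ∀ x, d x x = 0 := fun x => (h00 x x).2 rfl
  have nn := nonneg d h0 hyp
  have tr := tri d h0 hs hyp
  refine ⟨?_, ?_, ?_⟩
  · intro x y
    obtain ⟨f, hf0, hf1, hf⟩ := hgeo x y
    exact ⟨_, (hSeg _ x y).2 ⟨f, hf0, hf1, hf, rfl⟩⟩
  · intro S T x y z hS hT hST
    obtain ⟨f, hf0, hf1, hf, rfl⟩ := (hSeg _ _ _).1 hS
    obtain ⟨g, hg0, hg1, hg, rfl⟩ := (hSeg _ _ _).1 hT
    have mx0 : (0 : Λ) ∈ Set.Icc (0 : Λ) (d x y) := ⟨le_rfl, nn _ _⟩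
    have mx1 : d x y ∈ Set.Icc (0 : Λ) (d x y) := ⟨nn _ _, le_rfl⟩
    have my0 : (0 : Λ) ∈ Set.Icc (0 : Λ) (d y z) := ⟨le_rfl, nn _ _⟩
    have my1 : d y z ∈ Set.Icc (0 : Λ) (d y z) := ⟨nn _ _, le_rfl⟩
    obtain ⟨c, hc⟩ := hdiv (d x y + d y z - d x z)
    have c0 : 0 ≤ c := by
      by_contra h
      push Not at h
      have h1 : c + c < 0 := add_neg h h
      rw [hc, sub_neg] at h1
      exact absurd (tr x y z) (not_le.2 h1)
    have cx : c ≤ d x y := by
      by_contra h
      push Not at h
      have h1 : d x y + d x y < c + c := add_lt_add h h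
      have h2 : d y z ≤ d x y + d x z := by
        have := tr y x z
        rwa [hs y x] at this
      rw [hc] at h1
      have h3 : d x y + d x y + d x z < d x y + d y z := by
        rwa [lt_sub_iff_add_lt] at h1
      have h4 : d x y + d y z ≤ d x y + d x y + d x z := by
        rw [add_assoc]
        gcongr
      exact absurd h3 (not_lt.2 h4)
    have cz : c ≤ d y z := by
      by_contra h
      push Not at h
      have h1 : d y z + d y z < c + c := add_lt_add h h
      have h2 : d x y ≤ d x z + d y z := by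
        have := tr x z y
        rwa [hs z y] at this
      rw [hc] at h1
      have h3 : d y z + d y z + d x z < d x y + d y z := by
        rwa [lt_sub_iff_add_lt] at h1
      have h4 : d x y + d y z ≤ d y z + d y z + d x z := by
        calc d x y + d y z ≤ d x z + d y z + d y z := by gcongr
          _ = _ := by abel
      exact absurd h3 (not_lt.2 h4)
    have mu : d x y - c ∈ Set.Icc (0 : Λ) (d x y) := ⟨sub_nonneg.2 cx, sub_le_self _ c0⟩
    have mv : c ∈ Set.Icc (0 : Λ) (d y z) := ⟨c0, cz⟩
    have hyu : d y (f (d x y - c)) = c := by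
      have := hf _ mx1 _ mu
      rw [hf1] at this
      rw [this, sub_sub_cancel, abs_of_nonneg c0]
    have hux : d (f (d x y - c)) x = d y x - c := by
      have := hf _ mu _ mx0
      rw [hf0] at this
      rw [this, sub_zero, abs_of_nonneg mu.1, hs y x]
    have hyv : d y (g c) = c := by
      have := hg _ my0 _ mv
      rw [hg0] at this
      rw [this, zero_sub, abs_neg, abs_of_nonneg c0]
    have hvz : d (g c) z = d y z - c := by
      have := hg _ mv _ my1
      rw [hg1] at this
      rw [this, abs_sub_comm, abs_of_nonneg (sub_nonneg.2 cz)]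
    have huv : f (d x y - c) = g c := (h00 _ _).1 (agree d h0 hs hyp y x z _ _ c hyu hux hyv hvz (by
      rw [hc, hs y x]
      simp))
    have huy : f (d x y - c) = y := by
      have : f (d x y - c) ∈ f '' Set.Icc (0 : Λ) (d x y) ∩ g '' Set.Icc (0 : Λ) (d y z) :=
        ⟨⟨_, mu, rfl⟩, ⟨_, mv, huv.symm⟩⟩
      rw [hST] at this
      exact this
    have hc0 : c = 0 := by
      rw [← hyu, huy, h0]
    have hxz : d x z = d x y + d y z := by
      rw [hc0, add_zero] at hc
      exact (sub_eq_zero.1 hc.symm).symm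
    have lxy : d x y ≤ d x z := by
      rw [hxz]
      exact le_add_of_nonneg_right (nn _ _)
    -- the concatenation
    have key : ∀ s, 0 ≤ s → s ≤ d x y → ∀ t, d x y ≤ t → t ≤ d x z →
        d (f s) (g (t - d x y)) = t - s := by
      intro s hs0 hs1 t ht0 ht1
      have ms : s ∈ Set.Icc (0 : Λ) (d x y) := ⟨hs0, hs1⟩
      have mt : t - d x y ∈ Set.Icc (0 : Λ) (d y z) :=
        ⟨sub_nonneg.2 ht0, by rw [sub_le_iff_le_add, add_comm, ← hxz]; exact ht1⟩
      have e1 : d (f s) y = d x y - s := by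
        have := hf _ ms _ mx1
        rw [hf1] at this
        rw [this, abs_sub_comm, abs_of_nonneg (sub_nonneg.2 hs1)]
      have e2 : d x (f s) = s := by
        have := hf _ mx0 _ ms
        rw [hf0] at this
        rw [this, zero_sub, abs_neg, abs_of_nonneg hs0]
      have e3 : d y (g (t - d x y)) = t - d x y := by
        have := hg _ my0 _ mt
        rw [hg0] at this
        rw [this, zero_sub, abs_neg, abs_of_nonneg mt.1]
      have e4 : d (g (t - d x y)) z = d x z - t := by
        have := hg _ mt _ my1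
        rw [hg1] at this
        rw [this, abs_sub_comm, abs_of_nonneg (sub_nonneg.2 mt.2), hxz]
        abel
      refine le_antisymm ?_ ?_
      · have := tr (f s) y (g (t - d x y))
        rw [e1, e3] at this
        calc _ ≤ _ := this
          _ = _ := by abel
      · have h1 := tr x (f s) z
        have h2 := tr (f s) (g (t - d x y)) z
        rw [e2] at h1
        rw [e4] at h2
        have h3 : d x z ≤ s + (d (f s) (g (t - d x y)) + (d x z - t)) := h1.trans (by gcongr)
        have h4 : d x z ≤ d x z + (d (f s) (g (t - d x y)) - (t - s)) := by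
          calc _ ≤ _ := h3
            _ = _ := by abel
        exact sub_nonneg.1 (le_add_iff_nonneg_right _ |>.1 h4)
    refine ⟨x, z, (hSeg _ _ _).2 ⟨fun s => if s ≤ d x y then f s else g (s - d x y), ?_, ?_, ?_, ?_⟩⟩
    · exact (if_pos (nn _ _)).trans hf0
    · show (if d x z ≤ d x y then f (d x z) else g (d x z - d x y)) = z
      by_cases h : d x z ≤ d x y
      · have h1 : d x z = d x y := le_antisymm h lxy
        have h2 : d y z = 0 := by
          rw [hxz] at h1
          exact add_eq_left.1 h1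
        rw [if_pos h, h1, hf1]
        exact (h00 _ _).1 h2
      · rw [if_neg h, hxz, add_sub_cancel_left, hg1]
    · intro s hs' t ht'
      by_cases h1 : s ≤ d x y <;> by_cases h2 : t ≤ d x y
      · simp only [if_pos h1, if_pos h2]
        exact hf _ ⟨hs'.1, h1⟩ _ ⟨ht'.1, h2⟩
      · simp only [if_pos h1, if_neg h2]
        push Not at h2
        rw [key s hs'.1 h1 t h2.le ht'.2, abs_sub_comm, abs_of_nonneg (sub_nonneg.2 (h1.trans h2.le))]
      · simp only [if_neg h1, if_pos h2]
        push Not at h1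
        rw [hs, key t ht'.1 h2 s h1.le hs'.2, abs_of_nonneg (sub_nonneg.2 (h2.trans h1.le))]
      · simp only [if_neg h1, if_neg h2]
        push Not at h1 h2
        have m1 : s - d x y ∈ Set.Icc (0 : Λ) (d y z) :=
          ⟨sub_nonneg.2 h1.le, by rw [sub_le_iff_le_add, add_comm, ← hxz]; exact hs'.2⟩
        have m2 : t - d x y ∈ Set.Icc (0 : Λ) (d y z) :=
          ⟨sub_nonneg.2 h2.le, by rw [sub_le_iff_le_add, add_comm, ← hxz]; exact ht'.2⟩
        rw [hg _ m1 _ m2]
        congr 1
        abel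
    · ext q
      constructor
      · rintro (⟨s, hs', rfl⟩ | ⟨s, hs', rfl⟩)
        · exact ⟨s, ⟨hs'.1, hs'.2.trans lxy⟩, if_pos hs'.2⟩
        · by_cases h : s = 0
          · refine ⟨d x y, ⟨nn _ _, lxy⟩, ?_⟩
            simp only [le_refl, if_true]
            rw [h, hf1, hg0]
          · refine ⟨d x y + s, ⟨add_nonneg (nn _ _) hs'.1, ?_⟩, ?_⟩
            · rw [hxz]
              gcongr
              exact hs'.2
            · have : ¬ d x y + s ≤ d x y := by
                intro h'
                apply h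
                exact le_antisymm (nonpos_of_add_le_right h') hs'.1
              simp only [if_neg this]
              rw [add_sub_cancel_left]
      · rintro ⟨s, hs', rfl⟩
        by_cases h : s ≤ d x y
        · left
          exact ⟨s, ⟨hs'.1, h⟩, (if_pos h).symm⟩
        · right
          refine ⟨s - d x y, ⟨sub_nonneg.2 (not_le.1 h).le, ?_⟩, (if_neg h).symm⟩
          rw [sub_le_iff_le_add, add_comm, ← hxz]
          exact hs'.2
  · intro S T x y z hS hT
    obtain ⟨f, hf0, hf1, hf, rfl⟩ := (hSeg _ _ _).1 hS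
    obtain ⟨g, hg0, hg1, hg, rfl⟩ := (hSeg _ _ _).1 hT
    have mx0 : (0 : Λ) ∈ Set.Icc (0 : Λ) (d x y) := ⟨le_rfl, nn _ _⟩
    have mx1 : d x y ∈ Set.Icc (0 : Λ) (d x y) := ⟨nn _ _, le_rfl⟩
    have mz0 : (0 : Λ) ∈ Set.Icc (0 : Λ) (d x z) := ⟨le_rfl, nn _ _⟩
    have mz1 : d x z ∈ Set.Icc (0 : Λ) (d x z) := ⟨nn _ _, le_rfl⟩
    obtain ⟨c, hc⟩ := hdiv (d x y + d x z - d y z)
    have c0 : 0 ≤ c := by
      by_contra h
      push Not at h
      have h1 : c + c < 0 := add_neg h h
      rw [hc, sub_neg] at h1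
      have := tr y x z
      rw [hs y x] at this
      exact absurd this (not_le.2 h1)
    have cy : c ≤ d x y := by
      by_contra h
      push Not at h
      have h1 : d x y + d x y < c + c := add_lt_add h h
      rw [hc, lt_sub_iff_add_lt, add_assoc] at h1
      exact absurd (lt_of_add_lt_add_left h1) (not_lt.2 (tr x y z))
    have cz : c ≤ d x z := by
      by_contra h
      push Not at h
      have h1 : d x z + d x z < c + c := add_lt_add h h
      rw [hc, lt_sub_iff_add_lt, add_comm (d x y), add_assoc] at h1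
      have := tr x z y
      rw [hs z y] at this
      exact absurd (lt_of_add_lt_add_left h1) (not_lt.2 this)
    have mc : c ∈ Set.Icc (0 : Λ) (d x y) := ⟨c0, cy⟩
    have fx : ∀ s ∈ Set.Icc (0 : Λ) (d x y), d x (f s) = s := by
      intro s hs'
      have := hf _ mx0 _ hs'
      rw [hf0] at this
      rw [this, zero_sub, abs_neg, abs_of_nonneg hs'.1]
    have fy : ∀ s ∈ Set.Icc (0 : Λ) (d x y), d (f s) y = d x y - s := by
      intro s hs'
      have := hf _ hs' _ mx1
      rw [hf1] at this
      rw [this, abs_sub_comm, abs_of_nonneg (sub_nonneg.2 hs'.2)]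
    have gx : ∀ s ∈ Set.Icc (0 : Λ) (d x z), d x (g s) = s := by
      intro s hs'
      have := hg _ mz0 _ hs'
      rw [hg0] at this
      rw [this, zero_sub, abs_neg, abs_of_nonneg hs'.1]
    have gz : ∀ s ∈ Set.Icc (0 : Λ) (d x z), d (g s) z = d x z - s := by
      intro s hs'
      have := hg _ hs' _ mz1
      rw [hg1] at this
      rw [this, abs_sub_comm, abs_of_nonneg (sub_nonneg.2 hs'.2)]
    refine ⟨x, f c, (hSeg _ _ _).2 ⟨f, hf0, ?_, ?_, ?_⟩⟩
    · rw [fx c mc]
    · rw [fx c mc]
      intro s hs' t ht'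
      exact hf _ ⟨hs'.1, hs'.2.trans cy⟩ _ ⟨ht'.1, ht'.2.trans cy⟩
    · rw [fx c mc]
      ext q
      constructor
      · rintro ⟨⟨s, hs', rfl⟩, ⟨t, ht', htq⟩⟩
        have e : t = s := by
          rw [← gx t ht', htq, fx s hs']
        subst e
        refine ⟨t, ⟨hs'.1, ?_⟩, rfl⟩
        by_contra h
        push Not at h
        have h1 : c + c < t + t := add_lt_add h h
        have h2 : d y z ≤ (d x y - t) + (d x z - t) := by
          have h3 := tr y (f t) z
          rw [hs y (f t), fy t hs', ← htq, gz t ht'] at h3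
          exact h3
        rw [hc, sub_lt_iff_lt_add] at h1
        have h4 : d x y + d x z ≥ t + t + d y z := by
          calc t + t + d y z ≤ t + t + ((d x y - t) + (d x z - t)) := by gcongr
            _ = _ := by abel
        exact absurd h1 (not_lt.2 h4)
      · rintro ⟨s, hs', rfl⟩
        have m1 : s ∈ Set.Icc (0 : Λ) (d x y) := ⟨hs'.1, hs'.2.trans cy⟩
        have m2 : s ∈ Set.Icc (0 : Λ) (d x z) := ⟨hs'.1, hs'.2.trans cz⟩
        refine ⟨⟨s, m1, rfl⟩, ⟨s, m2, ?_⟩⟩
        refine ((h00 _ _).1 (agree d h0 hs hyp x y z _ _ s (fx s m1) (fy s m1) (gx s m2)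
          (gz s m2) ?_)).symm
        have h1 : s + s ≤ c + c := add_le_add hs'.2 hs'.2
        rw [hc] at h1
        exact le_sub_iff_add_le.1 h1

end geo

/-! ### The completion -/

section comp

variable {Y : Type} (d : Y → Y → Λ)

/-- A point on the segment between `e false` and `e true`, at distance `a b` from `e b`. -/
@[ext] structure Pt where
  e : Bool → Y
  a : Bool → Λ
  nn : ∀ b, 0 ≤ a b
  sum : a false + a true = d (e false) (e true)

variable {d}

/-- The distance of two points. -/
def D (p q : Pt d) : Λ := (Finset.univ : Finset (Bool × Bool)).sup' Finset.univ_nonempty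
  fun b => d (p.e b.1) (q.e b.2) - p.a b.1 - q.a b.2

theorem D_le {p q : Pt d} {c : Λ} : D p q ≤ c ↔ ∀ b b', d (p.e b) (q.e b') - p.a b - q.a b' ≤ c := by
  unfold D
  rw [Finset.sup'_le_iff]
  exact ⟨fun h b b' => h (b, b') (Finset.mem_univ _), fun h b _ => h b.1 b.2⟩

theorem le_D (p q : Pt d) (b b' : Bool) : d (p.e b) (q.e b') - p.a b - q.a b' ≤ D p q :=
  D_le.1 le_rfl b b'

theorem D_ex (p q : Pt d) : ∃ b b', D p q = d (p.e b) (q.e b') - p.a b - q.a b' := by
  obtain ⟨b, -, hb⟩ := Finset.exists_mem_eq_sup' (s := (Finset.univ : Finset (Bool × Bool)))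
    Finset.univ_nonempty (fun b => d (p.e b.1) (q.e b.2) - p.a b.1 - q.a b.2)
  exact ⟨b.1, b.2, hb⟩

section

variable (h0 : ∀ x, d x x = 0) (hs : ∀ x y, d x y = d y x)
  (hyp : ∀ w x y z, d w x + d y z ≤ max (d w y + d x z) (d w z + d x y))

include h0 hs in
theorem term_self (p : Pt d) (b b' : Bool) : d (p.e b) (p.e b') - p.a b - p.a b' ≤ 0 := by
  have hd : ∀ b, d (p.e b) (p.e b) - p.a b - p.a b ≤ 0 := by
    intro b
    rw [h0, zero_sub, sub_nonpos]
    exact (neg_nonpos.2 (p.nn b)).trans (p.nn b)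
  cases b <;> cases b'
  · exact hd _
  · rw [← p.sum]
    simp
  · rw [hs, ← p.sum]
    simp
  · exact hd _

include h0 hs in
theorem D_self (p : Pt d) : D p p = 0 := by
  refine le_antisymm (D_le.2 (term_self h0 hs p)) ?_
  have := le_D p p false true
  rwa [← p.sum, add_sub_cancel_left, sub_self] at this

include hs in
theorem D_symm (p q : Pt d) : D p q = D q p := by
  refine le_antisymm (D_le.2 fun b b' => ?_) (D_le.2 fun b b' => ?_)
  · have := le_D q p b' b
    rwa [hs, sub_right_comm] at this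
  · have := le_D p q b' b
    rwa [hs, sub_right_comm] at this

include hyp in
theorem D_hyp (w x y z : Pt d) : D w x + D y z ≤ max (D w y + D x z) (D w z + D x y) := by
  obtain ⟨b1, b2, h1⟩ := D_ex w x
  obtain ⟨b3, b4, h2⟩ := D_ex y z
  rw [h1, h2]
  have h := hyp (w.e b1) (x.e b2) (y.e b3) (z.e b4)
  have e1 : d (w.e b1) (x.e b2) - w.a b1 - x.a b2 + (d (y.e b3) (z.e b4) - y.a b3 - z.a b4) =
      d (w.e b1) (x.e b2) + d (y.e b3) (z.e b4) - (w.a b1 + x.a b2 + y.a b3 + z.a b4) := by abel
  rw [e1, sub_le_iff_le_add]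
  refine h.trans ?_
  rw [← sub_le_iff_le_add, ← max_sub_sub_right]
  refine max_le_max ?_ ?_
  · calc _ = (d (w.e b1) (y.e b3) - w.a b1 - y.a b3) + (d (x.e b2) (z.e b4) - x.a b2 - z.a b4) := by
          abel
      _ ≤ _ := add_le_add (le_D _ _ _ _) (le_D _ _ _ _)
  · calc _ = (d (w.e b1) (z.e b4) - w.a b1 - z.a b4) + (d (x.e b2) (y.e b3) - x.a b2 - y.a b3) := by
          abel
      _ ≤ _ := add_le_add (le_D _ _ _ _) (le_D _ _ _ _)

/-- The point of the segment `[w, w']` at distance `t` from `w`. -/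
def mk (w w' : Y) (t : Λ) (ht0 : 0 ≤ t) (ht1 : t ≤ d w w') : Pt d where
  e b := if b then w' else w
  a b := if b then d w w' - t else t
  nn b := by
    cases b
    · exact ht0
    · exact sub_nonneg.2 ht1
  sum := by simp

include h0 hs in
theorem D_mk (w w' : Y) (s t : Λ) (hs0 : 0 ≤ s) (hs1 : s ≤ d w w') (ht0 : 0 ≤ t)
    (ht1 : t ≤ d w w') : D (mk w w' s hs0 hs1) (mk w w' t ht0 ht1) = |s - t| := by
  refine le_antisymm (D_le.2 fun b b' => ?_) ?_
  · cases b <;> cases b'
    · show d w w - s - t ≤ _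
      rw [h0, zero_sub]
      exact (sub_nonpos.2 ((neg_nonpos.2 hs0).trans ht0)).trans (abs_nonneg _)
    · show d w w' - s - (d w w' - t) ≤ _
      rw [abs_sub_comm]
      refine le_trans (le_of_eq ?_) (le_abs_self _)
      abel
    · show d w' w - (d w w' - s) - t ≤ _
      rw [hs w' w]
      refine le_trans (le_of_eq ?_) (le_abs_self _)
      abel
    · show d w' w' - (d w w' - s) - (d w w' - t) ≤ _
      rw [h0, zero_sub]
      exact (sub_nonpos.2 ((neg_nonpos.2 (sub_nonneg.2 hs1)).trans (sub_nonneg.2 ht1))).trans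
        (abs_nonneg _)
  · rw [abs_le']
    constructor
    · have h : d w' w - (d w w' - s) - t ≤ _ :=
        le_D (mk w w' s hs0 hs1) (mk w w' t ht0 ht1) true false
      rw [hs w' w] at h
      refine le_trans (le_of_eq ?_) h
      abel
    · have h : d w w' - s - (d w w' - t) ≤ _ :=
        le_D (mk w w' s hs0 hs1) (mk w w' t ht0 ht1) false true
      refine le_trans (le_of_eq ?_) h
      abel

include h0 hs hyp in
theorem D_nonneg (p q : Pt d) : 0 ≤ D p q := nonneg D (D_self h0 hs) (D_hyp hyp) p q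

include h0 hs hyp in
theorem D_tri (p q r : Pt d) : D p r ≤ D p q + D q r :=
  tri D (D_self h0 hs) (D_symm hs) (D_hyp hyp) p q r

include h0 hs hyp in
/-- A point which lies on a segment. -/
theorem D_end (p r : Pt d) (b : Bool) (w : Y) (c : Bool)
    (hw : ∀ b', d (p.e b') w - p.a b' ≤ d (p.e b) w - p.a b)
    (h1 : r.e c = p.e b) (h2 : r.a c = p.a b) (h3 : r.e (!c) = w)
    (h4 : r.a (!c) = d (p.e b) w - p.a b) : D r p = 0 := by
  refine le_antisymm (D_le.2 fun b1 b' => ?_) (D_nonneg h0 hs hyp r p)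
  by_cases hb : b1 = c
  · rw [hb, h1, h2]
    exact term_self h0 hs p b b'
  · have hb' : b1 = !c := by
      cases b1 <;> cases c <;> simp_all
    rw [hb', h3, h4, hs w]
    have := hw b'
    rw [sub_sub, sub_nonpos, add_comm, ← sub_le_iff_le_add']
    rw [sub_le_iff_le_add] at this ⊢
    calc d (p.e b') w ≤ _ := this
      _ = _ := by abel

/-- The equivalence relation distance zero. -/
def st (h0 : ∀ x, d x x = 0) (hs : ∀ x y, d x y = d y x)
    (hyp : ∀ w x y z, d w x + d y z ≤ max (d w y + d x z) (d w z + d x y)) : Setoid (Pt d) where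
  r p q := D p q = 0
  iseqv :=
    { refl := fun p => D_self h0 hs p
      symm := fun {p q} h => by rw [D_symm hs]; exact h
      trans := fun {p q r} h1 h2 => le_antisymm (by
        have := D_tri h0 hs hyp p q r
        rwa [h1, h2, add_zero] at this) (D_nonneg h0 hs hyp p r) }

/-- The completion. -/
def Cp : Type := Quotient (st h0 hs hyp)

/-- The distance on the completion. -/
def dX : Cp h0 hs hyp → Cp h0 hs hyp → Λ :=
  Quotient.lift₂ D (by
    intro p q p' q' h1 h2
    have h1' : D p p' = 0 := h1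
    have h2' : D q q' = 0 := h2
    refine le_antisymm ?_ ?_
    · have e1 := D_tri h0 hs hyp p p' q
      have e2 := D_tri h0 hs hyp p' q' q
      rw [h1', zero_add] at e1
      rw [D_symm hs q' q, h2', add_zero] at e2
      exact e1.trans e2
    · have e1 := D_tri h0 hs hyp p' p q'
      have e2 := D_tri h0 hs hyp p q q'
      rw [D_symm hs p' p, h1', zero_add] at e1
      rw [h2', add_zero] at e2
      exact e1.trans e2)

theorem dX_geo (x y : Cp h0 hs hyp) : ∃ f : Λ → Cp h0 hs hyp, f 0 = x ∧ f (dX h0 hs hyp x y) = y ∧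
    ∀ s ∈ Set.Icc (0 : Λ) (dX h0 hs hyp x y), ∀ t ∈ Set.Icc (0 : Λ) (dX h0 hs hyp x y),
      dX h0 hs hyp (f s) (f t) = |s - t| := by
  obtain ⟨p, rfl⟩ := Quotient.exists_rep x
  obtain ⟨q, rfl⟩ := Quotient.exists_rep y
  show ∃ f : Λ → Cp h0 hs hyp, f 0 = _ ∧ f (D p q) = _ ∧
    ∀ s ∈ Set.Icc (0 : Λ) (D p q), ∀ t ∈ Set.Icc (0 : Λ) (D p q), _
  obtain ⟨b, b', hb⟩ := D_ex p q
  have hD := D_nonneg h0 hs hyp p q
  have key : ∀ s ∈ Set.Icc (0 : Λ) (D p q), 0 ≤ p.a b + s ∧ p.a b + s ≤ d (p.e b) (q.e b') := by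
    intro s hs'
    refine ⟨add_nonneg (p.nn b) hs'.1, ?_⟩
    have h1 : p.a b + s ≤ p.a b + D p q := by
      gcongr
      exact hs'.2
    refine h1.trans ?_
    rw [hb]
    have : p.a b + (d (p.e b) (q.e b') - p.a b - q.a b') = d (p.e b) (q.e b') - q.a b' := by abel
    rw [this]
    exact sub_le_self _ (q.nn b')
  classical
  refine ⟨fun s => if h : 0 ≤ p.a b + s ∧ p.a b + s ≤ d (p.e b) (q.e b') then
    Quotient.mk _ (mk (p.e b) (q.e b') (p.a b + s) h.1 h.2) else Quotient.mk _ p, ?_, ?_, ?_⟩
  · have h := key 0 ⟨le_rfl, hD⟩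
    refine (dif_pos h).trans (Quotient.sound ?_)
    show D _ p = 0
    refine D_end h0 hs hyp p _ b (q.e b') false ?_ rfl (add_zero _) rfl ?_
    · intro b₂
      have h1 := le_D p q b₂ b'
      rw [hb] at h1
      exact (sub_le_sub_iff_right _).1 h1
    · show d (p.e b) (q.e b') - (p.a b + 0) = _
      rw [add_zero]
  · have h := key (D p q) ⟨hD, le_rfl⟩
    refine (dif_pos h).trans (Quotient.sound ?_)
    show D _ q = 0
    refine D_end h0 hs hyp q _ b' (p.e b) true ?_ rfl ?_ rfl ?_
    · intro b₂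
      have h1 := le_D p q b b₂
      rw [hb, sub_right_comm, sub_right_comm _ (p.a b) (q.a b')] at h1
      rw [hs _ (p.e b), hs _ (p.e b)]
      exact (sub_le_sub_iff_right _).1 h1
    · show d (p.e b) (q.e b') - (p.a b + D p q) = _
      rw [hb]
      abel
    · show p.a b + D p q = _
      rw [hb, hs (q.e b')]
      abel
  · intro s hs' t ht'
    have h1 := key s hs'
    have h2 := key t ht'
    refine (congrArg₂ (dX h0 hs hyp) (dif_pos h1) (dif_pos h2)).trans ?_
    show D _ _ = _
    rw [D_mk h0 hs]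
    congr 1
    abel

end

end comp

end CC

open CC in
theorem pC : S_C := by
  intro Λ _ _ _ hdiv Γ _ Y _ d hne h0 hs hyp hinv hfree
  have hh0 : ∀ x : Pt d, D x x = 0 := D_self h0 hs
  let act : Γ → Pt d → Pt d := fun g p =>
    ⟨fun b => g • p.e b, p.a, p.nn, by rw [hinv]; exact p.sum⟩
  have actD : ∀ g p q, D (act g p) (act g q) = D p q := by
    intro g p q
    unfold D
    refine Finset.sup'_congr _ rfl ?_
    intro b _
    show d (g • p.e b.1) (g • q.e b.2) - p.a b.1 - q.a b.2 = _
    rw [hinv]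
  let aX : Γ → Cp h0 hs hyp → Cp h0 hs hyp := fun g => Quotient.map (act g) (by
    intro p q h
    show D _ _ = 0
    rw [actD]
    exact h)
  have aX_mk : ∀ g p, aX g (Quotient.mk _ p) = Quotient.mk _ (act g p) := fun g p => rfl
  let inst : MulAction Γ (Cp h0 hs hyp) :=
    { smul := aX
      one_smul := by
        intro x
        obtain ⟨p, rfl⟩ := Quotient.exists_rep x
        show Quotient.mk _ (act 1 p) = Quotient.mk _ p
        congr 1
        apply Pt.ext
        · funext b
          exact one_smul _ _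
        · rfl
      mul_smul := by
        intro g h x
        obtain ⟨p, rfl⟩ := Quotient.exists_rep x
        show Quotient.mk _ (act (g * h) p) = Quotient.mk _ (act g (act h p))
        congr 1
        apply Pt.ext
        · funext b
          exact mul_smul _ _ _
        · rfl }
  have e00 : ∀ x y, dX h0 hs hyp x y = 0 ↔ x = y := by
    intro x y
    obtain ⟨p, rfl⟩ := Quotient.exists_rep x
    obtain ⟨q, rfl⟩ := Quotient.exists_rep y
    exact (Quotient.eq (r := st h0 hs hyp)).symm
  have es : ∀ x y, dX h0 hs hyp x y = dX h0 hs hyp y x := by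
    intro x y
    obtain ⟨p, rfl⟩ := Quotient.exists_rep x
    obtain ⟨q, rfl⟩ := Quotient.exists_rep y
    exact D_symm hs p q
  have ehyp : ∀ w x y z, dX h0 hs hyp w x + dX h0 hs hyp y z ≤
      max (dX h0 hs hyp w y + dX h0 hs hyp x z) (dX h0 hs hyp w z + dX h0 hs hyp x y) := by
    intro w x y z
    obtain ⟨w, rfl⟩ := Quotient.exists_rep w
    obtain ⟨x, rfl⟩ := Quotient.exists_rep x
    obtain ⟨y, rfl⟩ := Quotient.exists_rep y
    obtain ⟨z, rfl⟩ := Quotient.exists_rep z
    exact D_hyp hyp w x y z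
  have einv : ∀ (g : Γ) x y, dX h0 hs hyp (g • x) (g • y) = dX h0 hs hyp x y := by
    intro g x y
    obtain ⟨p, rfl⟩ := Quotient.exists_rep x
    obtain ⟨q, rfl⟩ := Quotient.exists_rep y
    exact actD g p q
  let η : Y → Cp h0 hs hyp := fun y => Quotient.mk _ (mk (d := d) y y 0 le_rfl (by rw [h0]))
  have hη : ∀ y y', dX h0 hs hyp (η y) (η y') = d y y' := by
    intro y y'
    show D _ _ = _
    refine le_antisymm (D_le.2 ?_) ?_
    · intro b b'
      cases b <;> cases b' <;>
        (simp only [mk, h0, sub_zero, if_true, Bool.false_eq_true, if_false]; exact le_rfl)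
    · have := le_D (mk (d := d) y y 0 le_rfl (by rw [h0])) (mk (d := d) y' y' 0 le_rfl (by rw [h0])) false false
      simpa only [mk, sub_zero, Bool.false_eq_true, if_false] using this
  have hgη : ∀ (g : Γ) y, g • η y = η (g • y) := by
    intro g y
    show Quotient.mk _ (act g _) = Quotient.mk _ _
    congr 1
    apply Pt.ext
    · funext b
      cases b <;> rfl
    · funext b
      cases b
      · rfl
      · show d y y - 0 = d (g • y) (g • y) - 0
        rw [h0, h0]
  refine ⟨Cp h0 hs hyp, dX h0 hs hyp, MulAction.toPermHom Γ (Cp h0 hs hyp), ⟨η hne.some⟩, e00, es,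
    tri _ (fun x => (e00 x x).2 rfl) es ehyp, einv, ?_, ?_⟩
  · intro g x hx
    by_contra hg
    have hx2 : g • g • x = x := by
      have : (g ^ 2) • x = x := hx
      rwa [pow_two, mul_smul] at this
    obtain ⟨y, hy⟩ := hfree g hg
    refine absurd hy (not_lt.2 ?_)
    set dd := dX h0 hs hyp
    have l1 : dd (η y) (g • η y) = d y (g • y) := by rw [hgη, hη]
    have l2 : dd (η y) (g • g • η y) = d y (g • g • y) := by rw [hgη, hgη, hη]
    have l3 : dd (g • η y) (g • g • η y) = d y (g • y) := by rw [einv, l1]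
    rw [← l1, ← l2]
    -- first inequality
    have a1 : dd (g • η y) x = dd (η y) (g • x) := by
      conv_lhs => rw [← hx2]
      exact einv _ _ _
    have a2 : dd (g • g • η y) x = dd (η y) x := by
      conv_lhs => rw [← hx2]
      rw [einv, einv]
    have a3 : dd (g • g • η y) (g • x) = dd (η y) (g • x) := by
      rw [einv, a1]
    have a4 : dd (g • η y) (g • x) = dd (η y) x := einv _ _ _
    have i1 := ehyp (η y) (g • g • η y) (g • η y) x
    have i2 := ehyp (η y) (g • g • η y) (g • η y) (g • x)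
    change dd _ _ + dd _ _ ≤ max (dd _ _ + dd _ _) (dd _ _ + dd _ _) at i1 i2
    rw [a1, a2, es (g • g • η y) (g • η y)] at i1
    rw [a3, a4, es (g • g • η y) (g • η y)] at i2
    change _ ≤ max _ (dd _ _ + dd (g • η y) (g • g • η y)) at i1 i2
    rw [l3, ← l1, add_comm (dd (η y) x), max_self] at i1
    rw [l3, ← l1, add_comm (dd (η y) (g • x)) (dd (η y) (g • η y)), max_self] at i2
    have i3 := add_le_add i1 i2
    by_contra hc
    push Not at hc
    have i4 := add_lt_add hc hc
    have i5 : dd (η y) (g • g • η y) + dd (η y) (g • g • η y) +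
        (dd (η y) x + dd (η y) (g • x)) ≤
        dd (η y) (g • η y) + dd (η y) (g • η y) + (dd (η y) x + dd (η y) (g • x)) := by
      calc _ = dd (η y) (g • g • η y) + dd (η y) (g • x) + (dd (η y) (g • g • η y) +
            dd (η y) x) := by abel
        _ ≤ _ := i3
        _ = _ := by abel
    exact absurd (le_of_add_le_add_right i5) (not_le.2 i4)
  · intro Seg hSeg
    exact seg_ax _ e00 es ehyp hdiv (dX_geo h0 hs hyp) Seg hSeg

end Pool.Agent.LF
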